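import Mathlib
import Pool.Agent.SXF.Stmts2

set_option autoImplicit false

/-! SI2. -/

namespace Pool.Agent.SXF.H54

open MvPolynomial Pool.Agent.Helper78_ACIT Pool.Agent.WBX Pool.Agent.SXF

theorem si2 : Si2Stmt := by
  intro n D R T c y z ξ hT hc hy hz hξ i
  unfold gen
  split_ifs with hi
  swap
  · simp
  obtain ⟨a, ha⟩ : ∃ a, a = D * n * T + n + R + T + 1 := ⟨_, rfl⟩
  have ha1 : 1 ≤ a := by omega
  have haT : 1 + T ≤ a := by omega
  have hM : D * n * T ≤ a := by omega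
  have hn : n ≤ a := by omega
  have hR : R ≤ a := by omega
  have hstep : ∀ r, |step n i ((c r : ℕ) : ℤ)| ≤ (n * a ^ n : ℕ) := by
    intro r
    unfold step
    refine (Finset.abs_sum_le_sum_abs _ _).trans ?_
    have h1 : ∀ l ∈ Finset.range (i + 1),
        |∏ k ∈ (Finset.range (n + 1)).erase l, (((c r : ℕ) : ℤ) - (k : ℤ))| ≤ ((a ^ n : ℕ) : ℤ) := by
      intro l hl
      rw [Finset.abs_prod]
      have h2 : ∏ k ∈ (Finset.range (n + 1)).erase l, |((c r : ℕ) : ℤ) - (k : ℤ)| ≤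
          ∏ _k ∈ (Finset.range (n + 1)).erase l, (a : ℤ) := by
        refine Finset.prod_le_prod (fun k _ => abs_nonneg _) fun k hk => ?_
        have hk' := Finset.mem_range.mp (Finset.mem_of_mem_erase hk)
        have hcr := hc r
        rw [abs_le]
        constructor <;> omega
      refine h2.trans ?_
      rw [Finset.prod_const, Finset.card_erase_of_mem
        (Finset.mem_range.mpr (by have := Finset.mem_range.mp hl; omega)), Finset.card_range,
        Nat.add_sub_cancel]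
      push_cast
      exact le_rfl
    refine (Finset.sum_le_sum h1).trans ?_
    rw [Finset.sum_const, Finset.card_range, nsmul_eq_mul]
    have h3 : (i + 1) * a ^ n ≤ n * a ^ n := Nat.mul_le_mul_right _ (by omega)
    exact_mod_cast h3
  have hsum : ∀ w : Fin R → ℕ, (∀ r, w r ≤ D * n * T) →
      |∑ r, ((w r : ℕ) : ℤ) * step n i ((c r : ℕ) : ℤ)| ≤ ((a ^ (n + 3) : ℕ) : ℤ) := by
    intro w hw
    refine (Finset.abs_sum_le_sum_abs _ _).trans ?_
    have h1 : ∀ r ∈ (Finset.univ : Finset (Fin R)),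
        |((w r : ℕ) : ℤ) * step n i ((c r : ℕ) : ℤ)| ≤ ((a * (n * a ^ n) : ℕ) : ℤ) := by
      intro r _
      rw [abs_mul]
      have h2 : |((w r : ℕ) : ℤ)| ≤ (a : ℤ) := by
        rw [abs_of_nonneg (by positivity)]
        exact_mod_cast (hw r).trans hM
      calc |((w r : ℕ) : ℤ)| * |step n i ((c r : ℕ) : ℤ)| ≤ (a : ℤ) * ((n * a ^ n : ℕ) : ℤ) :=
            mul_le_mul h2 (hstep r) (abs_nonneg _) (by positivity)
        _ = ((a * (n * a ^ n) : ℕ) : ℤ) := by push_cast; ring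
    refine (Finset.sum_le_sum h1).trans ?_
    rw [Finset.sum_const, Finset.card_univ, Fintype.card_fin, nsmul_eq_mul]
    have h3 : R * (a * (n * a ^ n)) ≤ a ^ (n + 3) := by
      calc R * (a * (n * a ^ n)) ≤ a * (a * (a * a ^ n)) :=
            Nat.mul_le_mul hR (Nat.mul_le_mul_left _ (Nat.mul_le_mul_right _ hn))
        _ = a ^ (n + 3) := by ring
    exact_mod_cast h3
  have hY : |((i : ℤ) + 1) * ∑ r, ((y r : ℕ) : ℤ) * step n i ((c r : ℕ) : ℤ)| ≤
      ((a ^ (n + 4) : ℕ) : ℤ) := by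
    rw [abs_mul]
    have h2 : |(i : ℤ) + 1| ≤ (a : ℤ) := by
      rw [abs_of_nonneg (by positivity)]
      omega
    calc |(i : ℤ) + 1| * |∑ r, ((y r : ℕ) : ℤ) * step n i ((c r : ℕ) : ℤ)|
        ≤ (a : ℤ) * ((a ^ (n + 3) : ℕ) : ℤ) := mul_le_mul h2 (hsum y hy) (abs_nonneg _) (by positivity)
      _ = ((a ^ (n + 4) : ℕ) : ℤ) := by push_cast; ring
  have hterm : ∀ j ∈ (Finset.univ : Finset (Fin T)), |((ξ j : ℕ) : ℤ) *
      (((i : ℤ) + 1) * ∑ r, ((y r : ℕ) : ℤ) * step n i ((c r : ℕ) : ℤ)) ^ (j : ℕ)| ≤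
      ((a ^ ((n + 4) * T) : ℕ) : ℤ) := by
    intro j _
    rw [abs_mul, abs_pow]
    have h2 : |((ξ j : ℕ) : ℤ)| ≤ (a : ℤ) := by
      rw [abs_of_nonneg (by positivity)]
      exact_mod_cast (hξ j).trans hM
    have h3 := pow_le_pow_left₀ (abs_nonneg _) hY (j : ℕ)
    have h4 : a * (a ^ (n + 4)) ^ (j : ℕ) ≤ a ^ ((n + 4) * T) := by
      calc a * (a ^ (n + 4)) ^ (j : ℕ) = a ^ ((n + 4) * (j : ℕ) + 1) := by rw [← pow_mul]; ring
        _ ≤ a ^ ((n + 4) * T) := Nat.pow_le_pow_right (by omega) (by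
          have hj : (j : ℕ) + 1 ≤ T := j.2
          calc (n + 4) * (j : ℕ) + 1 ≤ (n + 4) * (j : ℕ) + (n + 4) := by omega
            _ = (n + 4) * ((j : ℕ) + 1) := by ring
            _ ≤ (n + 4) * T := Nat.mul_le_mul_left _ hj)
    calc |((ξ j : ℕ) : ℤ)| *
          |((i : ℤ) + 1) * ∑ r, ((y r : ℕ) : ℤ) * step n i ((c r : ℕ) : ℤ)| ^ (j : ℕ)
        ≤ (a : ℤ) * ((a ^ (n + 4) : ℕ) : ℤ) ^ (j : ℕ) :=
          mul_le_mul h2 h3 (by positivity) (by positivity)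
      _ = ((a * (a ^ (n + 4)) ^ (j : ℕ) : ℕ) : ℤ) := by push_cast; ring
      _ ≤ ((a ^ ((n + 4) * T) : ℕ) : ℤ) := by exact_mod_cast h4
  have hfin : |∑ r, ((z r : ℕ) : ℤ) * step n i ((c r : ℕ) : ℤ) + ∑ j : Fin T, ((ξ j : ℕ) : ℤ) *
      (((i : ℤ) + 1) * ∑ r, ((y r : ℕ) : ℤ) * step n i ((c r : ℕ) : ℤ)) ^ (j : ℕ)| ≤
      ((2 ^ ((n + 5) * T * (D * n * T + n + R + T + 1)) : ℕ) : ℤ) := by
    refine (abs_add_le _ _).trans ?_
    have h1 := hsum z hz
    have h2 : |∑ j : Fin T, ((ξ j : ℕ) : ℤ) *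
      (((i : ℤ) + 1) * ∑ r, ((y r : ℕ) : ℤ) * step n i ((c r : ℕ) : ℤ)) ^ (j : ℕ)| ≤
        ((T * a ^ ((n + 4) * T) : ℕ) : ℤ) := by
      refine (Finset.abs_sum_le_sum_abs _ _).trans ((Finset.sum_le_sum hterm).trans ?_)
      rw [Finset.sum_const, Finset.card_univ, Fintype.card_fin, nsmul_eq_mul]
      push_cast
      exact le_rfl
    refine (add_le_add h1 h2).trans ?_
    have h3 : a ^ (n + 3) + T * a ^ ((n + 4) * T) ≤
        2 ^ ((n + 5) * T * (D * n * T + n + R + T + 1)) := by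
      have h4 : a ^ (n + 3) ≤ a ^ ((n + 4) * T) := Nat.pow_le_pow_right (by omega) (by
        calc n + 3 ≤ (n + 4) * 1 := by omega
          _ ≤ (n + 4) * T := Nat.mul_le_mul_left _ hT)
      calc a ^ (n + 3) + T * a ^ ((n + 4) * T)
          ≤ a ^ ((n + 4) * T) + T * a ^ ((n + 4) * T) := Nat.add_le_add_right h4 _
        _ = (1 + T) * a ^ ((n + 4) * T) := by ring
        _ ≤ a * a ^ ((n + 4) * T) := Nat.mul_le_mul_right _ haT
        _ = a ^ ((n + 4) * T + 1) := by ring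
        _ ≤ a ^ ((n + 5) * T) := Nat.pow_le_pow_right (by omega) (by
          calc (n + 4) * T + 1 ≤ (n + 4) * T + T := by omega
            _ = (n + 5) * T := by ring)
        _ ≤ (2 ^ a) ^ ((n + 5) * T) := Nat.pow_le_pow_left Nat.lt_two_pow_self.le _
        _ = 2 ^ ((n + 5) * T * (D * n * T + n + R + T + 1)) := by rw [← pow_mul, ha, mul_comm]
    exact_mod_cast h3
  rw [Int.abs_eq_natAbs] at hfin
  exact_mod_cast hfin

end Pool.Agent.SXF.H54
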