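import Mathlib
import Pool.Agent.SXF.Stmts2
import Pool.Agent.Helper78_ACIT.Prime

set_option autoImplicit false

/-! TS2. -/

namespace Pool.Agent.SXF.H54

open MvPolynomial Pool.Agent.Helper78_ACIT Pool.Agent.WBX Pool.Agent.SXF

theorem step_map {A B : Type} [CommRing A] [CommRing B] (φ : A →+* B) (n i : ℕ) (c : A) :
    φ (step n i c) = step n i (φ c) := by
  unfold step
  simp only [map_sum, map_prod, map_sub, map_natCast]

theorem gen_map {A B : Type} [CommRing A] [CommRing B] (φ : A →+* B) {R T : ℕ} (n : ℕ)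
    (c y z : Fin R → A) (ξ : Fin T → A) (i : ℕ) :
    φ (gen n c y z ξ i) =
      gen n (fun r => φ (c r)) (fun r => φ (y r)) (fun r => φ (z r)) (fun j => φ (ξ j)) i := by
  unfold gen
  split_ifs
  · simp only [map_add, map_sum, map_mul, map_pow, map_natCast, map_one, step_map]
  · exact map_zero φ

theorem genValue_eq (n p N R T : ℕ) (c y z : Fin R → Fin N) (ξ : Fin T → Fin N) (G : List Gate) :
    genValue n p N R T c y z ξ G =
      ((eval (gen n (fun r => ((c r : ℕ) : ℤ)) (fun r => ((y r : ℕ) : ℤ)) (fun r => ((z r : ℕ) : ℤ))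
        (fun j => ((ξ j : ℕ) : ℤ))) (poly G) : ℤ) : ZMod p) := by
  unfold genValue
  have h1 := out_map (Int.castRingHom (ZMod p))
    (gen n (fun r => ((c r : ℕ) : ℤ)) (fun r => ((y r : ℕ) : ℤ)) (fun r => ((z r : ℕ) : ℤ))
        (fun j => ((ξ j : ℕ) : ℤ))) G
  have h2 : (fun i => Int.castRingHom (ZMod p)
      (gen n (fun r => ((c r : ℕ) : ℤ)) (fun r => ((y r : ℕ) : ℤ)) (fun r => ((z r : ℕ) : ℤ))
        (fun j => ((ξ j : ℕ) : ℤ)) i)) =
      gen n (fun r => ((c r : ℕ) : ZMod p)) (fun r => ((y r : ℕ) : ZMod p))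
        (fun r => ((z r : ℕ) : ZMod p)) (fun j => ((ξ j : ℕ) : ZMod p)) := by
    funext i
    rw [gen_map]
    simp
  rw [h2] at h1
  rw [← h1, out_eq_eval]
  rfl

theorem ts2 (hIH2 : Ih2Stmt) (hSI2 : Si2Stmt) : Ts2Stmt := by
  intro E _ _ n R T hT1 P hP D b G hG hpoly
  constructor
  · rintro ⟨-, h0⟩ p _ _ c y z ξ
    rw [genValue_eq, h0, map_zero, Int.cast_zero]
  · intro htest
    refine ⟨hG, ?_⟩
    rcases hpoly with h0 | ⟨hD, hb, S, hS, hS0, hdvd⟩
    · exact h0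
    exfalso
    obtain ⟨c, y, z, ξ, hc, hy, hz, hξ, hne⟩ :=
      hIH2 E n D R T (poly G) hD hT1 S.prod (hP S hS hS0) hdvd
    obtain ⟨V, hV⟩ : ∃ V, V = eval (gen n (fun r => (c r : ℤ)) (fun r => (y r : ℤ))
      (fun r => (z r : ℤ)) (fun j => (ξ j : ℤ))) (poly G) := ⟨_, rfl⟩
    rw [← hV] at hne
    have hVle : V.natAbs ≤ 2 ^ (b + D * ((n + 5) * T * (D * n * T + n + R + T + 1))) := by
      rw [hV]
      refine (UO.natAbs_eval_le (poly G) _ (2 ^ ((n + 5) * T * (D * n * T + n + R + T + 1))) D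
        (Nat.one_le_pow _ _ (by norm_num)) (hSI2 n D R T c y z ξ hT1 hc hy hz hξ) hD).trans ?_
      rw [← pow_mul, pow_add, mul_comm ((n + 5) * T * (D * n * T + n + R + T + 1)) D]
      exact Nat.mul_le_mul_right _ hb
    obtain ⟨p, hp, hple, hpnd⟩ := exists_prime_not_dvd V.natAbs _ (Int.natAbs_ne_zero.mpr hne)
      hVle
    apply hpnd
    have h1 := htest p hp hple (fun r => ⟨c r, Nat.lt_succ_of_le (hc r)⟩)
      (fun r => ⟨y r, Nat.lt_succ_of_le (hy r)⟩) (fun r => ⟨z r, Nat.lt_succ_of_le (hz r)⟩)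
      (fun j => ⟨ξ j, Nat.lt_succ_of_le (hξ j)⟩)
    rw [genValue_eq] at h1
    have h2 : ((V : ℤ) : ZMod p) = 0 := by
      rw [hV]
      exact h1
    rw [ZMod.intCast_zmod_eq_zero_iff_dvd, Int.natCast_dvd] at h2
    exact h2

end Pool.Agent.SXF.H54
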